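import Pool.Agent.E8helper46.HM.Transfer

/-! Many small bumps near `I`. -/

set_option autoImplicit false

open scoped MatrixGroups UpperHalfPlane ContDiff ENNReal Topology Pointwise
open MeasureTheory UpperHalfPlane Filter Pool.Agent.H85R3.HS Pool.Agent.E8helper58.HM

namespace Pool.Agent.E8helper46.HM

/-- The basic bump. -/
noncomputable def psi : ContDiffBump (0 : ℂ) := ⟨1 / 4, 1 / 3, by norm_num, by norm_num⟩

/-- The bump at scale `1 / s` around `p`. -/
noncomputable def bz (s : ℝ) (p z : ℂ) : ℝ := psi (s • (z - p))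

/-- The same on `ℍ`. -/
noncomputable def bf (s : ℝ) (p : ℂ) (w : ℍ) : ℝ := bz s p (w : ℂ)

theorem contDiff_bz (s : ℝ) (p : ℂ) : ContDiff ℝ ∞ (bz s p) := by
  have h1 : ContDiff ℝ ∞ fun z : ℂ => s • (z - p) :=
    (contDiff_id.sub contDiff_const).const_smul s
  exact psi.contDiff.comp h1

theorem bf_comp (s : ℝ) (p : ℂ) (w : ℍ) : (bf s p ∘ ofComplex) =ᶠ[𝓝 (w : ℂ)] bz s p := by
  filter_upwards [isOpen_upperHalfPlaneSet.mem_nhds w.im_pos] with z hz
  simp only [Function.comp, bf]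
  rw [ofComplex_apply_of_im_pos hz]

theorem contDiffAt_bf (s : ℝ) (p : ℂ) (w : ℍ) : ContDiffAt ℝ ∞ (bf s p ∘ ofComplex) w :=
  (contDiff_bz s p).contDiffAt.congr_of_eventuallyEq (bf_comp s p w)

theorem fderiv_bz (s : ℝ) (p z v : ℂ) :
    fderiv ℝ (bz s p) z v = s * fderiv ℝ psi (s • (z - p)) v := by
  have h1 : HasFDerivAt psi (fderiv ℝ psi (s • (z - p))) (s • (z - p)) :=
    ((psi.contDiff (n := 1)).differentiable (by norm_num) _).hasFDerivAt
  have h2 : HasFDerivAt (fun z : ℂ => s • (z - p)) (s • ContinuousLinearMap.id ℝ ℂ) z :=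
    ((hasFDerivAt_id z).sub_const p).const_smul s
  have h3 := h1.comp z h2
  have h4 : fderiv ℝ (bz s p) z = _ := h3.fderiv
  rw [h4]
  simp

theorem exists_bound : ∃ M : ℝ, 0 < M ∧ ∀ x v : ℂ, ‖v‖ ≤ 1 → (fderiv ℝ psi x v) ^ 2 ≤ M := by
  have h1 : Continuous (fderiv ℝ psi) := (psi.contDiff (n := 1)).continuous_fderiv (by norm_num)
  obtain ⟨C, hC⟩ := h1.bounded_above_of_compact_support (psi.hasCompactSupport.fderiv ℝ)
  have hC0 : 0 ≤ C := (norm_nonneg _).trans (hC 0)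
  refine ⟨C ^ 2 + 1, by positivity, fun x v hv => ?_⟩
  have h2 : ‖fderiv ℝ psi x v‖ ≤ C := by
    calc ‖fderiv ℝ psi x v‖ ≤ ‖fderiv ℝ psi x‖ * ‖v‖ := ContinuousLinearMap.le_opNorm _ _
      _ ≤ C * 1 := mul_le_mul (hC x) hv (norm_nonneg _) hC0
      _ = C := mul_one C
  rw [Real.norm_eq_abs] at h2
  have h3 := sq_le_sq' (by linarith [neg_abs_le (fderiv ℝ psi x v)])
    ((le_abs_self (fderiv ℝ psi x v)).trans h2)
  linarith

theorem gradSq_bf (s : ℝ) (p : ℂ) (w : ℍ) : gradSq (bf s p) w =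
    w.im ^ 2 * ((s * fderiv ℝ psi (s • ((w : ℂ) - p)) 1) ^ 2 +
      (s * fderiv ℝ psi (s • ((w : ℂ) - p)) Complex.I) ^ 2) := by
  unfold gradSq
  rw [(bf_comp s p w).fderiv_eq, fderiv_bz, fderiv_bz]

theorem gradSq_bf_le {M : ℝ} (hM : ∀ x v : ℂ, ‖v‖ ≤ 1 → (fderiv ℝ psi x v) ^ 2 ≤ M)
    (s : ℝ) (p : ℂ) {w : ℍ} (hw : w.im ≤ 3 / 2) :
    gradSq (bf s p) w ≤ 9 / 2 * s ^ 2 * M := by
  rw [gradSq_bf]
  have h1 := hM (s • ((w : ℂ) - p)) 1 (by simp)
  have h2 := hM (s • ((w : ℂ) - p)) Complex.I (by simp)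
  have h3 : w.im ^ 2 ≤ 9 / 4 := by nlinarith [w.im_pos]
  have h4 : (s * fderiv ℝ psi (s • ((w : ℂ) - p)) 1) ^ 2 +
      (s * fderiv ℝ psi (s • ((w : ℂ) - p)) Complex.I) ^ 2 ≤ 2 * s ^ 2 * M := by
    rw [mul_pow, mul_pow]
    nlinarith [sq_nonneg s]
  calc _ ≤ 9 / 4 * (2 * s ^ 2 * M) := by
        refine mul_le_mul h3 h4 (by positivity) (by norm_num)
    _ = _ := by ring

theorem bz_eq_zero {s : ℝ} (hs : 0 < s) {p z : ℂ} (h : 1 / (3 * s) ≤ ‖z - p‖) : bz s p z = 0 := by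
  by_contra hne
  have h1 : s • (z - p) ∈ Function.support psi := hne
  rw [psi.support_eq, Metric.mem_ball, dist_zero_right, norm_smul, Real.norm_of_nonneg hs.le] at h1
  have h2 : s * ‖z - p‖ < 1 / 3 := h1
  have h3 : 1 / 3 ≤ s * ‖z - p‖ := by
    calc (1 : ℝ) / 3 = s * (1 / (3 * s)) := by field_simp
      _ ≤ _ := mul_le_mul_of_nonneg_left h hs.le
  linarith

theorem bz_eq_one {s : ℝ} (hs : 0 < s) {p z : ℂ} (h : ‖z - p‖ ≤ 1 / (4 * s)) : bz s p z = 1 := by
  apply psi.one_of_mem_closedBall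
  rw [Metric.mem_closedBall, dist_zero_right, norm_smul, Real.norm_of_nonneg hs.le]
  calc s * ‖z - p‖ ≤ s * (1 / (4 * s)) := mul_le_mul_of_nonneg_left h hs.le
    _ = 1 / 4 := by field_simp

theorem bf_far {s : ℝ} (hs : 0 < s) {p : ℂ} {w : ℍ} (h : 1 / (3 * s) < ‖(w : ℂ) - p‖) :
    ∀ᶠ w' : ℍ in 𝓝 w, bf s p w' = 0 := by
  have hc : ContinuousAt (fun w' : ℍ => ‖(w' : ℂ) - p‖) w :=
    (UpperHalfPlane.continuous_coe.sub continuous_const).norm.continuousAt
  filter_upwards [hc.eventually (lt_mem_nhds h)] with w' hw'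
  exact bz_eq_zero hs hw'.le

theorem volume_pre_le {R : ℝ} {p : ℂ} (hR : 0 ≤ R) (h : ∀ z : ℂ, ‖z - p‖ ≤ R → 1 / 2 ≤ z.im) :
    volume {w : ℍ | ‖(w : ℂ) - p‖ ≤ R} ≤ ENNReal.ofReal (4 * (R ^ 2 * Real.pi)) := by
  rw [volume_eq_lintegral]
  have hsub : (UpperHalfPlane.coe '' {w : ℍ | ‖(w : ℂ) - p‖ ≤ R}) ⊆ Metric.closedBall p R := by
    rintro _ ⟨w, hw, rfl⟩
    rw [Metric.mem_closedBall, Complex.dist_eq]
    exact hw
  calc _ ≤ ∫⁻ z in Metric.closedBall p R, ↑((1 / ‖z.im‖₊) ^ 2 : NNReal) := lintegral_mono_set hsub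
    _ ≤ ∫⁻ _z in Metric.closedBall p R, ENNReal.ofReal 4 := by
        refine setLIntegral_mono' Metric.isClosed_closedBall.measurableSet ?_
        intro z hz
        rw [Metric.mem_closedBall, Complex.dist_eq] at hz
        have h1 := h z hz
        rw [ENNReal.ofReal]
        norm_cast
        rw [← NNReal.coe_le_coe, Real.coe_toNNReal _ (by norm_num)]
        push_cast
        rw [Real.norm_of_nonneg (by linarith)]
        have h2 : 1 / z.im ≤ 2 := by
          rw [div_le_iff₀ (by linarith)]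
          linarith
        have h3 : 0 ≤ 1 / z.im := by positivity
        nlinarith
    _ = _ := by
        rw [setLIntegral_const, Complex.volume_closedBall, ← ENNReal.ofReal_coe_nnreal,
          ← ENNReal.ofReal_pow hR, ← ENNReal.ofReal_mul (by positivity),
          ← ENNReal.ofReal_mul (by norm_num)]
        rfl

theorem volume_pre_ge {R : ℝ} {p : ℂ} (hR : 0 ≤ R)
    (h : ∀ z : ℂ, ‖z - p‖ ≤ R → 1 / 2 ≤ z.im ∧ z.im ≤ 3 / 2) :
    ENNReal.ofReal (4 / 9 * (R ^ 2 * Real.pi)) ≤ volume {w : ℍ | ‖(w : ℂ) - p‖ ≤ R} := by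
  rw [volume_eq_lintegral]
  have hsub : Metric.closedBall p R ⊆ (UpperHalfPlane.coe '' {w : ℍ | ‖(w : ℂ) - p‖ ≤ R}) := by
    intro z hz
    rw [Metric.mem_closedBall, Complex.dist_eq] at hz
    have h1 := h z hz
    exact ⟨⟨z, by linarith [h1.1]⟩, hz, rfl⟩
  calc ENNReal.ofReal (4 / 9 * (R ^ 2 * Real.pi))
      = ∫⁻ _z in Metric.closedBall p R, ENNReal.ofReal (4 / 9) := by
        rw [setLIntegral_const, Complex.volume_closedBall, ← ENNReal.ofReal_coe_nnreal,
          ← ENNReal.ofReal_pow hR, ← ENNReal.ofReal_mul (by positivity),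
          ← ENNReal.ofReal_mul (by norm_num)]
        rfl
    _ ≤ ∫⁻ z in Metric.closedBall p R, ↑((1 / ‖z.im‖₊) ^ 2 : NNReal) := by
        refine setLIntegral_mono' Metric.isClosed_closedBall.measurableSet ?_
        intro z hz
        rw [Metric.mem_closedBall, Complex.dist_eq] at hz
        have h1 := h z hz
        rw [ENNReal.ofReal]
        norm_cast
        rw [← NNReal.coe_le_coe, Real.coe_toNNReal _ (by norm_num)]
        push_cast
        rw [Real.norm_of_nonneg (by linarith [h1.1])]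
        have h2 : (2 : ℝ) / 3 ≤ 1 / z.im := by
          rw [le_div_iff₀ (by linarith [h1.1])]
          linarith [h1.2]
        nlinarith
    _ ≤ _ := lintegral_mono_set hsub

/-- The energy bound for one bump. -/
theorem energy_bf {M : ℝ} (hM0 : 0 < M) (hM : ∀ x v : ℂ, ‖v‖ ≤ 1 → (fderiv ℝ psi x v) ^ 2 ≤ M)
    {s : ℝ} (hs : 0 < s) {p : ℂ}
    (h : ∀ z : ℂ, ‖z - p‖ ≤ 1 / (3 * s) → 1 / 2 ≤ z.im ∧ z.im ≤ 3 / 2) :
    ∫⁻ w : ℍ, ENNReal.ofReal (gradSq (bf s p) w) ≤
      ENNReal.ofReal (72 * M * s ^ 2) * ∫⁻ w : ℍ, ENNReal.ofReal (bf s p w ^ 2) := by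
  set A : Set ℍ := {w : ℍ | ‖(w : ℂ) - p‖ ≤ 1 / (3 * s)} with hA
  set A' : Set ℍ := {w : ℍ | ‖(w : ℂ) - p‖ ≤ 1 / (4 * s)} with hA'
  have hAc : IsClosed A := isClosed_le (UpperHalfPlane.continuous_coe.sub continuous_const).norm
    continuous_const
  have hAc' : IsClosed A' := isClosed_le (UpperHalfPlane.continuous_coe.sub continuous_const).norm
    continuous_const
  have hle : 1 / (4 * s) ≤ 1 / (3 * s) := one_div_le_one_div_of_le (by positivity) (by linarith)
  have h1 : ∫⁻ w : ℍ, ENNReal.ofReal (gradSq (bf s p) w) ≤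
      ENNReal.ofReal (9 / 2 * s ^ 2 * M) * volume A := by
    calc ∫⁻ w : ℍ, ENNReal.ofReal (gradSq (bf s p) w)
        ≤ ∫⁻ w : ℍ, A.indicator (fun _ => ENNReal.ofReal (9 / 2 * s ^ 2 * M)) w := by
          refine lintegral_mono fun w => ?_
          by_cases hw : w ∈ A
          · rw [Set.indicator_of_mem hw]
            exact ENNReal.ofReal_le_ofReal (gradSq_bf_le hM s p (h _ hw).2)
          · rw [Set.indicator_of_notMem hw, gradSq_eq_zero_of_eventually (bf_far hs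
              (by simpa [hA] using hw))]
            simp
      _ = _ := by rw [lintegral_indicator hAc.measurableSet, setLIntegral_const]
  have h2 : volume A' ≤ ∫⁻ w : ℍ, ENNReal.ofReal (bf s p w ^ 2) := by
    calc volume A' = ∫⁻ w : ℍ, A'.indicator (fun _ => 1) w := by
          rw [lintegral_indicator hAc'.measurableSet, setLIntegral_const, one_mul]
      _ ≤ _ := by
          refine lintegral_mono fun w => ?_
          by_cases hw : w ∈ A'
          · rw [Set.indicator_of_mem hw]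
            have : bf s p w = 1 := bz_eq_one hs hw
            rw [this]
            simp
          · rw [Set.indicator_of_notMem hw]
            exact bot_le
  have h3 := volume_pre_le (p := p) (R := 1 / (3 * s)) (by positivity) (fun z hz => (h z hz).1)
  have h4 := volume_pre_ge (p := p) (R := 1 / (4 * s)) (by positivity)
    (fun z hz => h z (hz.trans hle))
  calc ∫⁻ w : ℍ, ENNReal.ofReal (gradSq (bf s p) w)
      ≤ ENNReal.ofReal (9 / 2 * s ^ 2 * M) * ENNReal.ofReal (4 * ((1 / (3 * s)) ^ 2 * Real.pi)) :=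
        h1.trans (mul_le_mul_right h3 _)
    _ ≤ ENNReal.ofReal (72 * M * s ^ 2) * ENNReal.ofReal (4 / 9 * ((1 / (4 * s)) ^ 2 * Real.pi)) := by
        rw [← ENNReal.ofReal_mul (by positivity), ← ENNReal.ofReal_mul (by positivity)]
        apply ENNReal.ofReal_le_ofReal
        have e1 : 9 / 2 * s ^ 2 * M * (4 * ((1 / (3 * s)) ^ 2 * Real.pi)) = 2 * M * Real.pi := by
          field_simp
          ring
        have e2 : 72 * M * s ^ 2 * (4 / 9 * ((1 / (4 * s)) ^ 2 * Real.pi)) = 2 * M * Real.pi := by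
          field_simp
          ring
        rw [e1, e2]
    _ ≤ _ := mul_le_mul_right (h4.trans h2) _

end Pool.Agent.E8helper46.HM
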