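import Pool.Agent.E8helper46.HM.Bumps

/-! Test functions on `ℍ / Γ₁` whose averages over `Γ₀` vanish. -/

set_option autoImplicit false

open scoped MatrixGroups UpperHalfPlane ContDiff ENNReal Topology Pointwise
open MeasureTheory UpperHalfPlane Filter Pool.Agent.H85R3.HS Pool.Agent.E8helper58.HM

namespace Pool.Agent.E8helper46.HM

theorem exists_centres {r : ℝ} (hr : 0 < r) : ∃ C : ℝ, 0 < C ∧ ∀ i : ℕ, ∃ (s : ℝ)
    (p : Fin (i + 1) → ℂ), 0 < s ∧ s ^ 2 ≤ C * (i + 1) ∧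
    (∀ j k, j ≠ k → 1 / s ≤ ‖p j - p k‖) ∧ ∀ j z, ‖z - p j‖ ≤ 1 / (3 * s) →
      1 / 2 ≤ z.im ∧ z.im ≤ 3 / 2 ∧ ∀ w : ℍ, (w : ℂ) = z → dist w UpperHalfPlane.I < r := by
  have hopen : IsOpen (UpperHalfPlane.coe '' Metric.ball UpperHalfPlane.I r) :=
    isOpenEmbedding_coe.isOpenMap _ Metric.isOpen_ball
  have hmem : Complex.I ∈ UpperHalfPlane.coe '' Metric.ball UpperHalfPlane.I r :=
    ⟨UpperHalfPlane.I, Metric.mem_ball_self hr, UpperHalfPlane.coe_I⟩
  obtain ⟨a₀, ha₀, hball⟩ := Metric.isOpen_iff.mp hopen _ hmem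
  set a : ℝ := min (a₀ / 3) (1 / 6) with ha
  have ha1 : 0 < a := lt_min (by linarith) (by norm_num)
  have ha2 : 3 * a ≤ a₀ := by
    have := min_le_left (a₀ / 3) (1 / 6 : ℝ)
    linarith
  have ha3 : a ≤ 1 / 6 := min_le_right _ _
  refine ⟨2 / a ^ 2, by positivity, fun i => ?_⟩
  set n : ℕ := Nat.sqrt i + 1 with hn
  have hn0 : 0 < n := Nat.succ_pos _
  have hn1 : i + 1 ≤ n * n := Nat.lt_succ_sqrt i
  have hnR : (0 : ℝ) < n := Nat.cast_pos.mpr hn0
  set s : ℝ := n / a with hs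
  have hs0 : 0 < s := by positivity
  set p : Fin (i + 1) → ℂ := fun j => ⟨((j.1 % n : ℕ) : ℝ) / s, 1 + ((j.1 / n : ℕ) : ℝ) / s⟩ with hp
  have hns : (n : ℝ) / s = a := by
    rw [hs]
    field_simp
  have hm1 : ∀ j : Fin (i + 1), ((j.1 % n : ℕ) : ℝ) + 1 ≤ n := by
    intro j
    have := Nat.mod_lt j.1 hn0
    exact_mod_cast this
  have hm2 : ∀ j : Fin (i + 1), ((j.1 / n : ℕ) : ℝ) + 1 ≤ n := by
    intro j
    have : j.1 / n < n := Nat.div_lt_of_lt_mul (lt_of_lt_of_le j.2 hn1)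
    exact_mod_cast this
  refine ⟨s, p, hs0, ?_, ?_, ?_⟩
  · have h1 : (n : ℝ) ^ 2 ≤ 2 * (i + 1) := by
      have h2 : Nat.sqrt i * Nat.sqrt i ≤ i := Nat.sqrt_le i
      have h3 : ((Nat.sqrt i : ℕ) : ℝ) * ((Nat.sqrt i : ℕ) : ℝ) ≤ i := by exact_mod_cast h2
      rw [hn]
      push_cast
      nlinarith [sq_nonneg (((Nat.sqrt i : ℕ) : ℝ) - 1)]
    rw [hs, div_pow, div_mul_eq_mul_div]
    exact div_le_div_of_nonneg_right h1 (by positivity)
  · intro j k hjk
    have hne : j.1 % n ≠ k.1 % n ∨ j.1 / n ≠ k.1 / n := by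
      by_contra hcon
      push Not at hcon
      apply hjk
      apply Fin.ext
      rw [← Nat.mod_add_div j.1 n, ← Nat.mod_add_div k.1 n, hcon.1, hcon.2]
    have hint : ∀ a b : ℕ, a ≠ b → 1 / s ≤ |(a : ℝ) / s - (b : ℝ) / s| := by
      intro a b hab
      rw [← sub_div, abs_div, abs_of_pos hs0]
      refine div_le_div_of_nonneg_right ?_ hs0.le
      have h1 : (1 : ℤ) ≤ |(a : ℤ) - b| := Int.one_le_abs (by
        intro h
        apply hab
        omega)
      exact_mod_cast h1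
    rcases hne with h | h
    · refine (hint _ _ h).trans ?_
      have := Complex.abs_re_le_norm (p j - p k)
      simpa [hp] using this
    · refine (hint _ _ h).trans ?_
      have := Complex.abs_im_le_norm (p j - p k)
      simpa [hp] using this
  · intro j z hz
    have h1 : ‖p j - Complex.I‖ ≤ ((j.1 % n : ℕ) : ℝ) / s + ((j.1 / n : ℕ) : ℝ) / s := by
      refine (Complex.norm_le_abs_re_add_abs_im _).trans ?_
      have e1 : (p j - Complex.I).re = ((j.1 % n : ℕ) : ℝ) / s := by simp [hp]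
      have e2 : (p j - Complex.I).im = ((j.1 / n : ℕ) : ℝ) / s := by simp [hp]
      rw [e1, e2, abs_of_nonneg (by positivity), abs_of_nonneg (by positivity)]
    have h2 : ‖z - Complex.I‖ < 3 * a := by
      have h3 : ‖z - Complex.I‖ ≤ ‖z - p j‖ + ‖p j - Complex.I‖ := norm_sub_le_norm_sub_add_norm_sub _ _ _
      have h4 : ((j.1 % n : ℕ) : ℝ) / s + ((j.1 / n : ℕ) : ℝ) / s + 2 / s ≤ 2 * a := by
        rw [← hns, ← add_div, ← add_div, mul_div_assoc']
        refine div_le_div_of_nonneg_right ?_ hs0.le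
        linarith [hm1 j, hm2 j]
      have h5 : 1 / (3 * s) ≤ 2 / s := by
        rw [div_le_div_iff₀ (by positivity) hs0]
        linarith
      linarith
    have h6 := Complex.abs_im_le_norm (z - Complex.I)
    rw [Complex.sub_im, Complex.I_im] at h6
    have h7 := abs_le.mp (h6.trans h2.le)
    refine ⟨by linarith [h7.1], by linarith [h7.2], ?_⟩
    intro w hw
    have h8 : (w : ℂ) ∈ Metric.ball Complex.I a₀ := by
      rw [Metric.mem_ball, Complex.dist_eq, hw]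
      linarith
    obtain ⟨w', hw', hww⟩ := hball h8
    have : w' = w := UpperHalfPlane.ext hww
    rw [← this]
    exact hw'

variable {i : ℕ} {s : ℝ} {p : Fin (i + 1) → ℂ}

/-- The linear combinations of the bumps. -/
noncomputable def uu (s : ℝ) (p : Fin (i + 1) → ℂ) : (Fin (i + 1) → ℝ) →ₗ[ℝ] (ℍ → ℝ) where
  toFun a w := ∑ j, a j * bf s (p j) w
  map_add' a b := by
    funext w
    simp [add_mul, Finset.sum_add_distrib]
  map_smul' c a := by
    funext w
    simp [Finset.mul_sum, mul_assoc]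

theorem uu_apply (a : Fin (i + 1) → ℝ) (w : ℍ) : uu s p a w = ∑ j, a j * bf s (p j) w := rfl

theorem isolated (hs : 0 < s) (hsep : ∀ j k, j ≠ k → 1 / s ≤ ‖p j - p k‖) (w : ℍ) :
    ∃ j₀, ∀ k, k ≠ j₀ → ∀ᶠ w' : ℍ in 𝓝 w, bf s (p k) w' = 0 := by
  by_cases hex : ∃ j₀, ‖(w : ℂ) - p j₀‖ ≤ 1 / (3 * s)
  · obtain ⟨j₀, hj₀⟩ := hex
    refine ⟨j₀, fun k hk => bf_far hs ?_⟩
    have h1 := hsep k j₀ hk
    have h2 : ‖p k - p j₀‖ ≤ ‖(w : ℂ) - p k‖ + ‖(w : ℂ) - p j₀‖ := by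
      have := norm_sub_le ((w : ℂ) - p j₀) ((w : ℂ) - p k)
      rw [show (w : ℂ) - p j₀ - ((w : ℂ) - p k) = p k - p j₀ by ring] at this
      linarith
    have h3 : 1 / s = 3 * (1 / (3 * s)) := by field_simp
    have h4 : 0 < 1 / (3 * s) := by positivity
    linarith
  · push Not at hex
    exact ⟨0, fun k _ => bf_far hs (hex k)⟩

theorem uu_eventually {w : ℍ} {j₀ : Fin (i + 1)}
    (h : ∀ k, k ≠ j₀ → ∀ᶠ w' : ℍ in 𝓝 w, bf s (p k) w' = 0) (a : Fin (i + 1) → ℝ) :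
    ∀ᶠ w' : ℍ in 𝓝 w, uu s p a w' = a j₀ * bf s (p j₀) w' := by
  have h1 : ∀ᶠ w' : ℍ in 𝓝 w, ∀ k, k ≠ j₀ → bf s (p k) w' = 0 := by
    rw [Filter.eventually_all]
    intro k
    by_cases hk : k = j₀
    · exact Filter.Eventually.of_forall fun _ hne => absurd hk hne
    · filter_upwards [h k hk] with w' hw' _
      exact hw'
  filter_upwards [h1] with w' hw'
  rw [uu_apply, Finset.sum_eq_single j₀]
  · intro k _ hk
    rw [hw' k hk, mul_zero]
  · simp

theorem uu_smooth (hs : 0 < s) (hsep : ∀ j k, j ≠ k → 1 / s ≤ ‖p j - p k‖)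
    (a : Fin (i + 1) → ℝ) (w : ℍ) : ContDiffAt ℝ ∞ (uu s p a ∘ ofComplex) w := by
  obtain ⟨j₀, hj₀⟩ := isolated hs hsep w
  have h2 : (uu s p a ∘ ofComplex) =ᶠ[𝓝 (w : ℂ)] fun z => a j₀ * (bf s (p j₀) ∘ ofComplex) z := by
    filter_upwards [(tendsto_ofComplex w).eventually (uu_eventually hj₀ a)] with z hz
    exact hz
  exact (contDiffAt_const.mul (contDiffAt_bf _ _ w)).congr_of_eventuallyEq h2

theorem sq_uu (hs : 0 < s) (hsep : ∀ j k, j ≠ k → 1 / s ≤ ‖p j - p k‖)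
    (a : Fin (i + 1) → ℝ) (w : ℍ) : ENNReal.ofReal (uu s p a w ^ 2) =
      ∑ j, ENNReal.ofReal (a j ^ 2) * ENNReal.ofReal (bf s (p j) w ^ 2) := by
  obtain ⟨j₀, hj₀⟩ := isolated hs hsep w
  rw [(uu_eventually hj₀ a).self_of_nhds, Finset.sum_eq_single j₀, mul_pow,
    ENNReal.ofReal_mul (sq_nonneg _)]
  · intro k _ hk
    rw [(hj₀ k hk).self_of_nhds]
    simp
  · simp

theorem gradSq_uu (hs : 0 < s) (hsep : ∀ j k, j ≠ k → 1 / s ≤ ‖p j - p k‖)
    (a : Fin (i + 1) → ℝ) (w : ℍ) : ENNReal.ofReal (gradSq (uu s p a) w) =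
      ∑ j, ENNReal.ofReal (a j ^ 2) * ENNReal.ofReal (gradSq (bf s (p j)) w) := by
  obtain ⟨j₀, hj₀⟩ := isolated hs hsep w
  rw [gradSq_congr (uu_eventually hj₀ a), gradSq_const_mul _
    ((contDiffAt_bf _ _ w).differentiableAt (by simp)), Finset.sum_eq_single j₀,
    ENNReal.ofReal_mul (sq_nonneg _)]
  · intro k _ hk
    rw [gradSq_eq_zero_of_eventually (hj₀ k hk)]
    simp
  · simp

theorem continuous_bf (s : ℝ) (p : ℂ) : Continuous (bf s p) :=
  (contDiff_bz s p).continuous.comp UpperHalfPlane.continuous_coe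

theorem energy_uu (hs : 0 < s) (hsep : ∀ j k, j ≠ k → 1 / s ≤ ‖p j - p k‖) {t : ℝ}
    (ht : ∀ j, ∫⁻ w : ℍ, ENNReal.ofReal (gradSq (bf s (p j)) w) ≤
      ENNReal.ofReal t * ∫⁻ w : ℍ, ENNReal.ofReal (bf s (p j) w ^ 2)) (a : Fin (i + 1) → ℝ) :
    ∫⁻ w : ℍ, ENNReal.ofReal (gradSq (uu s p a) w) ≤
      ENNReal.ofReal t * ∫⁻ w : ℍ, ENNReal.ofReal (uu s p a w ^ 2) := by
  simp only [sq_uu hs hsep, gradSq_uu hs hsep]
  have hm1 : ∀ j, Measurable fun w : ℍ => ENNReal.ofReal (gradSq (bf s (p j)) w) :=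
    fun j => (measurable_gradSq _).ennreal_ofReal
  have hm2 : ∀ j, Measurable fun w : ℍ => ENNReal.ofReal (bf s (p j) w ^ 2) :=
    fun j => ((continuous_bf s (p j)).measurable.pow_const 2).ennreal_ofReal
  rw [lintegral_finsetSum _ (fun j _ => (hm1 j).const_mul _),
    lintegral_finsetSum _ (fun j _ => (hm2 j).const_mul _), Finset.mul_sum]
  refine Finset.sum_le_sum fun j _ => ?_
  rw [lintegral_const_mul _ (hm1 j), lintegral_const_mul _ (hm2 j), mul_left_comm]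
  exact mul_le_mul_right (ht j) _

theorem s_test : S_TEST := by
  intro Γ₁ Γ₀ S m c h hM hS hc hh hh1
  set r : ℝ := S / 2 with hr
  have hr0 : 0 < r := by positivity
  have hrS : 2 * r ≤ S := by linarith
  obtain ⟨C, hC0, hC⟩ := exists_centres (r := r / 2) (by positivity)
  obtain ⟨M, hM0, hMb⟩ := exists_bound
  refine ⟨72 * M * C, by positivity, fun i => ?_⟩
  obtain ⟨s, p, hs, hsC, hsep, hp⟩ := hC i
  have hsupp : ∀ (a : Fin (i + 1) → ℝ) (w : ℍ), uu s p a w ≠ 0 →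
      dist w UpperHalfPlane.I < r / 2 := by
    intro a w hne
    by_contra hcon
    apply hne
    rw [uu_apply]
    refine Finset.sum_eq_zero fun j _ => ?_
    have : bf s (p j) w = 0 := by
      apply bz_eq_zero hs
      by_contra h1
      push Not at h1
      exact hcon ((hp j w h1.le).2.2 w rfl)
    rw [this, mul_zero]
  have hinj : Function.Injective ((tr Γ₀ r (eps Γ₁ h)).comp (uu s p)) := by
    intro a b hab
    funext j
    have h2 : ‖p j - p j‖ ≤ 1 / (3 * s) := by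
      rw [sub_self, norm_zero]
      positivity
    have h1 : 0 < (p j).im := by linarith [(hp j (p j) h2).1]
    set w : ℍ := ⟨p j, h1⟩ with hw
    have hw1 : (w : ℂ) = p j := rfl
    have h3 : dist w UpperHalfPlane.I < r / 2 := (hp j (p j) h2).2.2 w hw1
    have h4 : ∀ a : Fin (i + 1) → ℝ, (tr Γ₀ r (eps Γ₁ h)).comp (uu s p) a w = a j := by
      intro a
      rw [LinearMap.comp_apply, tr_eq hM hrS _ _ Γ₀.one_mem (w := w) (by rw [one_smul]; linarith),
        eps_one hh1, one_mul, one_smul, uu_apply, Finset.sum_eq_single j]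
      · have : bf s (p j) w = 1 := bz_eq_one hs (by
          rw [hw1, sub_self, norm_zero]
          positivity)
        rw [this, mul_one]
      · intro k _ hk
        have : bf s (p k) w = 0 := bz_eq_zero hs (by
          rw [hw1]
          refine le_trans ?_ (hsep j k (Ne.symm hk))
          exact one_div_le_one_div_of_le hs (by linarith))
        rw [this, mul_zero]
      · simp
    rw [← h4 a, ← h4 b, hab]
  refine ⟨LinearMap.range ((tr Γ₀ r (eps Γ₁ h)).comp (uu s p)), ?_, ?_⟩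
  · rw [LinearMap.finrank_range_of_inj hinj]
    simp
  · rintro _ ⟨a, rfl⟩
    have hsm := uu_smooth hs hsep a
    refine ⟨⟨tr_smooth hM hr0 hrS _ (hsupp a) hsm, fun g hg w =>
      tr_invariant hM hrS hc.1 h _ hg w⟩, fun z => tr_sum_zero hM hrS hc hh _ z, ?_⟩
    refine rayleigh_tr hM hS hr0 hrS hc.1 hh hh1 (hsupp a) hsm (energy_uu hs hsep ?_ a)
    intro j
    have h1 := energy_bf hM0 hMb hs (p := p j) (fun z hz => ⟨(hp j z hz).1, (hp j z hz).2.1⟩)
    have h2 : 72 * M * s ^ 2 ≤ 72 * M * C * (i + 1) := by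
      calc 72 * M * s ^ 2 ≤ 72 * M * (C * (i + 1)) :=
            mul_le_mul_of_nonneg_left hsC (by positivity)
        _ = 72 * M * C * (i + 1) := by ring
    exact h1.trans (mul_le_mul_left (ENNReal.ofReal_le_ofReal h2) _)

end Pool.Agent.E8helper46.HM
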