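import Pool.Agent.E8helper58.HM.Stm

/-! Transfer of functions supported near `I` to functions on `ℍ / Γ₁` whose averages over `Γ₀`
vanish. -/

set_option autoImplicit false

open scoped MatrixGroups UpperHalfPlane ContDiff ENNReal Topology Pointwise
open MeasureTheory UpperHalfPlane Filter Pool.Agent.H85R3.HS Pool.Agent.E8helper58.HM

namespace Pool.Agent.E8helper46.HM

variable {Γ₁ Γ₀ : Subgroup SL(2, ℝ)} {S r : ℝ}

open Classical in
/-- The transfer with weights `ε`. -/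
noncomputable def tr (Γ₀ : Subgroup SL(2, ℝ)) (r : ℝ) (ε : SL(2, ℝ) → ℝ) :
    (ℍ → ℝ) →ₗ[ℝ] (ℍ → ℝ) where
  toFun u w := if h : ∃ g, g ∈ Γ₀ ∧ dist (g • w) UpperHalfPlane.I < r then
    ε h.choose * u (h.choose • w) else 0
  map_add' u v := by
    funext w
    simp only [Pi.add_apply]
    split_ifs <;> ring
  map_smul' c u := by
    funext w
    simp only [Pi.smul_apply, smul_eq_mul, RingHom.id_apply]
    split_ifs <;> ring

theorem near_unique (hM : MovesFar Γ₀ S) (hr : 2 * r ≤ S) {g g' : SL(2, ℝ)}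
    (hg : g ∈ Γ₀) (hg' : g' ∈ Γ₀) {w : ℍ} (h : dist (g • w) UpperHalfPlane.I < r)
    (h' : dist (g' • w) UpperHalfPlane.I < r) : g = g' := by
  refine hM.eq_of_dist_lt hg hg' (z := w) ?_
  calc dist (g • w) (g' • w) ≤ dist (g • w) UpperHalfPlane.I + dist (g' • w) UpperHalfPlane.I :=
        dist_triangle_right _ _ _
    _ < S := by linarith

theorem tr_eq (hM : MovesFar Γ₀ S) (hr : 2 * r ≤ S) (ε : SL(2, ℝ) → ℝ) (u : ℍ → ℝ)
    {g : SL(2, ℝ)} (hg : g ∈ Γ₀) {w : ℍ} (h : dist (g • w) UpperHalfPlane.I < r) :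
    tr Γ₀ r ε u w = ε g * u (g • w) := by
  classical
  have hex : ∃ g, g ∈ Γ₀ ∧ dist (g • w) UpperHalfPlane.I < r := ⟨g, hg, h⟩
  have h1 : hex.choose = g := near_unique hM hr hex.choose_spec.1 hg hex.choose_spec.2 h
  have h2 : tr Γ₀ r ε u w = ε hex.choose * u (hex.choose • w) := dif_pos hex
  rw [h2, h1]

theorem tr_zero (ε : SL(2, ℝ) → ℝ) (u : ℍ → ℝ) {w : ℍ}
    (h : ∀ g ∈ Γ₀, r ≤ dist (g • w) UpperHalfPlane.I) : tr Γ₀ r ε u w = 0 := by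
  classical
  have hex : ¬ ∃ g, g ∈ Γ₀ ∧ dist (g • w) UpperHalfPlane.I < r := by
    rintro ⟨g, hg, h1⟩
    exact absurd (h g hg) (not_le.mpr h1)
  exact dif_neg hex

theorem tr_near (hM : MovesFar Γ₀ S) (hr : 2 * r ≤ S) (ε : SL(2, ℝ) → ℝ) (u : ℍ → ℝ)
    {g : SL(2, ℝ)} (hg : g ∈ Γ₀) {w : ℍ} (h : dist (g • w) UpperHalfPlane.I < r) :
    ∀ᶠ w' in 𝓝 w, tr Γ₀ r ε u w' = ε g * u (g • w') := by
  have hc : ContinuousAt (fun w' : ℍ => dist (g • w') UpperHalfPlane.I) w :=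
    ((continuous_const_smul g).dist continuous_const).continuousAt
  filter_upwards [hc.eventually (gt_mem_nhds h)] with w' hw'
  exact tr_eq hM hr ε u hg hw'

theorem tr_far (hM : MovesFar Γ₀ S) (hr0 : 0 < r) (hr : 2 * r ≤ S) (ε : SL(2, ℝ) → ℝ) {u : ℍ → ℝ}
    (hu : ∀ w, u w ≠ 0 → dist w UpperHalfPlane.I < r / 2) {w : ℍ}
    (h : ∀ g ∈ Γ₀, r ≤ dist (g • w) UpperHalfPlane.I) :
    ∀ᶠ w' in 𝓝 w, tr Γ₀ r ε u w' = 0 := by
  filter_upwards [Metric.ball_mem_nhds w (show 0 < r / 2 by linarith)] with w' hw'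
  by_cases hex : ∃ g ∈ Γ₀, dist (g • w') UpperHalfPlane.I < r
  · obtain ⟨g, hg, h1⟩ := hex
    rw [tr_eq hM hr ε u hg h1]
    have h0 : u (g • w') = 0 := by
      by_contra hne
      have h2 := hu _ hne
      have h3 := h g hg
      have h4 : dist (g • w) (g • w') < r / 2 := by
        rw [dist_smul, dist_comm]
        exact hw'
      have := dist_triangle (g • w) (g • w') UpperHalfPlane.I
      linarith
    rw [h0, mul_zero]
  · push Not at hex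
    exact tr_zero ε u hex

theorem contDiffAt_comp_smul {u : ℍ → ℝ} (hs : ∀ w : ℍ, ContDiffAt ℝ ∞ (u ∘ ofComplex) w)
    (h : SL(2, ℝ)) (w : ℍ) : ContDiffAt ℝ ∞ ((fun w : ℍ => u (h • w)) ∘ ofComplex) w := by
  have h1 : ((fun w : ℍ => u (h • w)) ∘ ofComplex) = (u ∘ ofComplex) ∘ mob h :=
    funext (comp_mob u h)
  rw [h1]
  have hw : mob h (w : ℂ) = ((h • w : ℍ) : ℂ) := by simp [mob, ofComplex_apply]
  refine ContDiffAt.comp (w : ℂ) ?_ (contDiffAt_mob h w)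
  rw [hw]
  exact hs _

theorem tr_smooth (hM : MovesFar Γ₀ S) (hr0 : 0 < r) (hr : 2 * r ≤ S) (ε : SL(2, ℝ) → ℝ)
    {u : ℍ → ℝ} (hu : ∀ w, u w ≠ 0 → dist w UpperHalfPlane.I < r / 2)
    (hs : ∀ w : ℍ, ContDiffAt ℝ ∞ (u ∘ ofComplex) w) :
    ContDiffOn ℝ ∞ (tr Γ₀ r ε u ∘ ofComplex) {z : ℂ | 0 < z.im} := by
  intro p hp
  obtain ⟨w, rfl⟩ : ∃ w : ℍ, (w : ℂ) = p := ⟨⟨p, hp⟩, rfl⟩
  refine ContDiffAt.contDiffWithinAt ?_
  by_cases hex : ∃ g ∈ Γ₀, dist (g • w) UpperHalfPlane.I < r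
  · obtain ⟨g, hg, h1⟩ := hex
    have h2 : (tr Γ₀ r ε u ∘ ofComplex) =ᶠ[𝓝 (w : ℂ)]
        fun p => ε g * ((fun w : ℍ => u (g • w)) ∘ ofComplex) p := by
      filter_upwards [(tendsto_ofComplex w).eventually (tr_near hM hr ε u hg h1)] with p hp
      exact hp
    exact (contDiffAt_const.mul (contDiffAt_comp_smul hs _ w)).congr_of_eventuallyEq h2
  · push Not at hex
    have h2 : (tr Γ₀ r ε u ∘ ofComplex) =ᶠ[𝓝 (w : ℂ)] fun _ => 0 := by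
      filter_upwards [(tendsto_ofComplex w).eventually (tr_far hM hr0 hr ε hu hex)] with p hp
      exact hp
    exact contDiffAt_const.congr_of_eventuallyEq h2

theorem gradSq_tr (hM : MovesFar Γ₀ S) (hr : 2 * r ≤ S) (ε : SL(2, ℝ) → ℝ)
    {u : ℍ → ℝ} (hs : ∀ w : ℍ, ContDiffAt ℝ ∞ (u ∘ ofComplex) w) {g : SL(2, ℝ)} (hg : g ∈ Γ₀)
    {w : ℍ} (h : dist (g • w) UpperHalfPlane.I < r) :
    gradSq (tr Γ₀ r ε u) w = ε g ^ 2 * gradSq u (g • w) := by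
  have h3 : ∀ᶠ w' in 𝓝 w, tr Γ₀ r ε u w' = ε g * (fun w : ℍ => u (g • w)) w' :=
    tr_near hM hr ε u hg h
  rw [gradSq_congr h3, gradSq_const_mul _ ((contDiffAt_comp_smul hs g w).differentiableAt
    (by simp)), gradSq_smul]
  exact (hs _).differentiableAt (by simp)

theorem gradSq_supp {u : ℍ → ℝ} (hr0 : 0 < r)
    (hu : ∀ w, u w ≠ 0 → dist w UpperHalfPlane.I < r / 2) {w : ℍ}
    (h : r ≤ dist w UpperHalfPlane.I) : gradSq u w = 0 := by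
  apply gradSq_eq_zero_of_eventually
  filter_upwards [Metric.ball_mem_nhds w (show 0 < r / 2 by linarith)] with w' hw'
  by_contra hne
  have h2 := hu _ hne
  have h4 : dist w' w < r / 2 := hw'
  have := dist_triangle_left w UpperHalfPlane.I w'
  linarith

open Classical in
/-- The weights. -/
noncomputable def eps (Γ₁ : Subgroup SL(2, ℝ)) (h g : SL(2, ℝ)) : ℝ :=
  (if g ∈ Γ₁ then 1 else 0) - (if h * g ∈ Γ₁ then 1 else 0)

theorem eps_mul {h g γ : SL(2, ℝ)} (hγ : γ ∈ Γ₁) : eps Γ₁ h (g * γ) = eps Γ₁ h g := by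
  unfold eps
  rw [← mul_assoc, Subgroup.mul_mem_cancel_right _ hγ, Subgroup.mul_mem_cancel_right _ hγ]

theorem eps_one {h : SL(2, ℝ)} (hh : h ∉ Γ₁) : eps Γ₁ h 1 = 1 := by
  simp [eps, hh]

theorem sum_boole {m : ℕ} {c : Fin m → SL(2, ℝ)} (hc : IsReps Γ₁ Γ₀ c) {g : SL(2, ℝ)}
    (hg : g ∈ Γ₀) [∀ k, Decidable (g * (c k)⁻¹ ∈ Γ₁)] :
    ∑ k, (if g * (c k)⁻¹ ∈ Γ₁ then (1 : ℝ) else 0) = 1 := by
  obtain ⟨i, hi, huniq⟩ := hc.2.2 g hg
  rw [Finset.sum_eq_single i, if_pos hi]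
  · intro k _ hk
    rw [if_neg]
    intro h
    exact hk (huniq k h)
  · simp

theorem sum_eps {m : ℕ} {c : Fin m → SL(2, ℝ)} (hc : IsReps Γ₁ Γ₀ c) {g h : SL(2, ℝ)}
    (hg : g ∈ Γ₀) (hh : h ∈ Γ₀) : ∑ k, eps Γ₁ h (g * (c k)⁻¹) = 0 := by
  classical
  unfold eps
  rw [Finset.sum_sub_distrib, sum_boole hc hg]
  have h1 := sum_boole hc (Γ₀.mul_mem hh hg)
  simp only [mul_assoc] at h1
  rw [h1, sub_self]

theorem tr_invariant (hM : MovesFar Γ₀ S) (hr : 2 * r ≤ S) (h1 : Γ₁ ≤ Γ₀) (h : SL(2, ℝ))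
    (u : ℍ → ℝ) {γ : SL(2, ℝ)} (hγ : γ ∈ Γ₁) (w : ℍ) :
    tr Γ₀ r (eps Γ₁ h) u (γ • w) = tr Γ₀ r (eps Γ₁ h) u w := by
  by_cases hex : ∃ g ∈ Γ₀, dist (g • γ • w) UpperHalfPlane.I < r
  · obtain ⟨g, hg, h2⟩ := hex
    rw [tr_eq hM hr _ u hg h2]
    rw [← mul_smul] at h2 ⊢
    rw [tr_eq hM hr _ u (Γ₀.mul_mem hg (h1 hγ)) h2, eps_mul hγ]
  · push Not at hex
    rw [tr_zero _ u hex, tr_zero _ u]
    intro g hg
    have := hex (g * γ⁻¹) (Γ₀.mul_mem hg (Γ₀.inv_mem (h1 hγ)))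
    rwa [mul_smul, inv_smul_smul] at this

theorem tr_sum_zero (hM : MovesFar Γ₀ S) (hr : 2 * r ≤ S) {m : ℕ} {c : Fin m → SL(2, ℝ)}
    (hc : IsReps Γ₁ Γ₀ c) {h : SL(2, ℝ)} (hh : h ∈ Γ₀) (u : ℍ → ℝ) (w : ℍ) :
    ∑ k, tr Γ₀ r (eps Γ₁ h) u (c k • w) = 0 := by
  by_cases hex : ∃ g ∈ Γ₀, dist (g • w) UpperHalfPlane.I < r
  · obtain ⟨g, hg, h2⟩ := hex
    have h3 : ∀ k, tr Γ₀ r (eps Γ₁ h) u (c k • w) = eps Γ₁ h (g * (c k)⁻¹) * u (g • w) := by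
      intro k
      have h4 : (g * (c k)⁻¹) • c k • w = g • w := by rw [mul_smul, inv_smul_smul]
      rw [tr_eq hM hr _ u (Γ₀.mul_mem hg (Γ₀.inv_mem (hc.2.1 k))) (by rw [h4]; exact h2), h4]
    rw [Finset.sum_congr rfl (fun k _ => h3 k), ← Finset.sum_mul, sum_eps hc hg hh, zero_mul]
  · push Not at hex
    refine Finset.sum_eq_zero fun k _ => ?_
    apply tr_zero
    intro g hg
    have := hex (g * c k) (Γ₀.mul_mem hg (hc.2.1 k))
    rwa [mul_smul] at this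

theorem sum_formula (hM : MovesFar Γ₀ S) (hr : 2 * r ≤ S) (h1 : Γ₁ ≤ Γ₀) {h : SL(2, ℝ)}
    (hh : h ∈ Γ₀) (hh1 : h ∉ Γ₁) {σ ρ : ℍ → ℝ}
    (hA : ∀ g ∈ Γ₀, ∀ w : ℍ, dist (g • w) UpperHalfPlane.I < r →
      σ w = eps Γ₁ h g ^ 2 * ρ (g • w))
    (hB : ∀ w, (∀ g ∈ Γ₀, r ≤ dist (g • w) UpperHalfPlane.I) → σ w = 0)
    (hC : ∀ w, r ≤ dist w UpperHalfPlane.I → ρ w = 0) (w : ℍ) :
    ENNReal.ofReal (σ w) = ∑' g : Γ₁, ENNReal.ofReal (ρ (g.1 • w)) +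
      ∑' g : Γ₁, ENNReal.ofReal (ρ (h⁻¹ • (g.1 • w))) := by
  by_cases hex : ∃ g ∈ Γ₀, dist (g • w) UpperHalfPlane.I < r
  · obtain ⟨g₀, hg₀, h2⟩ := hex
    have hz : ∀ g ∈ Γ₀, g ≠ g₀ → ρ (g • w) = 0 := by
      intro g hg hne
      apply hC
      by_contra hcon
      push Not at hcon
      exact hne (near_unique hM hr hg hg₀ hcon h2)
    have hz' : ∀ g ∈ Γ₁, h⁻¹ * g ≠ g₀ → ρ (h⁻¹ • (g • w)) = 0 := by
      intro g hg hne
      rw [← mul_smul]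
      exact hz _ (Γ₀.mul_mem (Γ₀.inv_mem hh) (h1 hg)) hne
    rw [hA g₀ hg₀ w h2]
    by_cases c1 : g₀ ∈ Γ₁
    · have c2 : h * g₀ ∉ Γ₁ := by
        intro hcon
        exact hh1 ((Subgroup.mul_mem_cancel_right _ c1).mp hcon)
      rw [tsum_eq_single (⟨g₀, c1⟩ : Γ₁)]
      · have h3 : ∀ g : Γ₁, ENNReal.ofReal (ρ (h⁻¹ • (g.1 • w))) = 0 := by
          intro g
          rw [hz' g.1 g.2, ENNReal.ofReal_zero]
          intro hcon
          apply c2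
          rw [← hcon, mul_inv_cancel_left]
          exact g.2
        simp [h3, eps, c1, c2]
      · intro g hg
        rw [hz g.1 (h1 g.2) (fun hcon => hg (Subtype.ext hcon)), ENNReal.ofReal_zero]
    · have h3 : ∀ g : Γ₁, ENNReal.ofReal (ρ (g.1 • w)) = 0 := by
        intro g
        rw [hz g.1 (h1 g.2), ENNReal.ofReal_zero]
        intro hcon
        exact c1 (hcon ▸ g.2)
      by_cases c2 : h * g₀ ∈ Γ₁
      · rw [tsum_eq_single (⟨h * g₀, c2⟩ : Γ₁) (f := fun g : Γ₁ =>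
          ENNReal.ofReal (ρ (h⁻¹ • (g.1 • w))))]
        · have h4 : h⁻¹ • ((h * g₀) • w) = g₀ • w := by
            rw [← mul_smul, inv_mul_cancel_left]
          simp [h3, eps, c1, c2, h4]
        · intro g hg
          rw [hz' g.1 g.2, ENNReal.ofReal_zero]
          intro hcon
          apply hg
          apply Subtype.ext
          change g.1 = h * g₀
          rw [← hcon, mul_inv_cancel_left]
      · have h4 : ∀ g : Γ₁, ENNReal.ofReal (ρ (h⁻¹ • (g.1 • w))) = 0 := by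
          intro g
          rw [hz' g.1 g.2, ENNReal.ofReal_zero]
          intro hcon
          apply c2
          rw [← hcon, mul_inv_cancel_left]
          exact g.2
        simp [h3, h4, eps, c1, c2]
  · push Not at hex
    have h3 : ∀ g : Γ₁, ENNReal.ofReal (ρ (g.1 • w)) = 0 := by
      intro g
      rw [hC _ (hex g.1 (h1 g.2)), ENNReal.ofReal_zero]
    have h4 : ∀ g : Γ₁, ENNReal.ofReal (ρ (h⁻¹ • (g.1 • w))) = 0 := by
      intro g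
      rw [← mul_smul, hC _ (hex _ (Γ₀.mul_mem (Γ₀.inv_mem hh) (h1 g.2))), ENNReal.ofReal_zero]
    rw [hB w hex]
    simp [h3, h4]

theorem unfold_two (hM : MovesFar Γ₁ S) (hS : 0 < S) {D : Set ℍ}
    (hD : IsFundamentalDomain Γ₁ D (volume : Measure ℍ)) (h : SL(2, ℝ)) {σ ρ : ℍ → ℝ}
    (hρ : Measurable ρ)
    (hσ : ∀ w, ENNReal.ofReal (σ w) = ∑' g : Γ₁, ENNReal.ofReal (ρ (g.1 • w)) +
      ∑' g : Γ₁, ENNReal.ofReal (ρ (h⁻¹ • (g.1 • w)))) :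
    ∫⁻ w in D, ENNReal.ofReal (σ w) = 2 * ∫⁻ w : ℍ, ENNReal.ofReal (ρ w) := by
  have : Countable Γ₁ := hM.countable hS
  have hone : ∀ ρ' : ℍ → ℝ, Measurable ρ' →
      ∫⁻ w in D, ∑' g : Γ₁, ENNReal.ofReal (ρ' (g.1 • w)) = ∫⁻ w : ℍ, ENNReal.ofReal (ρ' w) := by
    intro ρ' hρ'
    have hm : ∀ (g : Γ₁), Measurable fun w : ℍ => ENNReal.ofReal (ρ' (g.1 • w)) :=
      fun g => (hρ'.comp (measurable_const_smul g.1)).ennreal_ofReal
    rw [lintegral_tsum (fun g => (hm g).aemeasurable), hD.lintegral_eq_tsum'']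
    rfl
  have hρ2 : Measurable fun w : ℍ => ρ (h⁻¹ • w) := hρ.comp (measurable_const_smul h⁻¹)
  have hm : Measurable fun w : ℍ => ∑' g : Γ₁, ENNReal.ofReal (ρ (g.1 • w)) :=
    Measurable.tsum fun g => (hρ.comp (measurable_const_smul g.1)).ennreal_ofReal
  simp only [hσ]
  rw [lintegral_add_left hm, hone ρ hρ, hone _ hρ2]
  have h5 : ∫⁻ w : ℍ, ENNReal.ofReal (ρ (h⁻¹ • w)) = ∫⁻ w : ℍ, ENNReal.ofReal (ρ w) :=
    (measurePreserving_smul h⁻¹ (volume : Measure ℍ)).lintegral_comp hρ.ennreal_ofReal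
  rw [h5, two_mul]

theorem continuous_of_smooth {u : ℍ → ℝ} (hs : ∀ w : ℍ, ContDiffAt ℝ ∞ (u ∘ ofComplex) w) :
    Continuous u := by
  rw [continuous_iff_continuousAt]
  intro w
  have h1 : ContinuousAt (u ∘ ofComplex) (w : ℂ) := (hs w).continuousAt
  have h2 : ContinuousAt ((u ∘ ofComplex) ∘ UpperHalfPlane.coe) w :=
    ContinuousAt.comp h1 UpperHalfPlane.continuous_coe.continuousAt
  have h3 : (u ∘ ofComplex) ∘ UpperHalfPlane.coe = u := by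
    funext w
    simp [Function.comp]
  rwa [h3] at h2

theorem rayleigh_tr (hM : MovesFar Γ₀ S) (hS : 0 < S) (hr0 : 0 < r) (hr : 2 * r ≤ S)
    (h1 : Γ₁ ≤ Γ₀) {h : SL(2, ℝ)} (hh : h ∈ Γ₀) (hh1 : h ∉ Γ₁) {u : ℍ → ℝ}
    (hu : ∀ w, u w ≠ 0 → dist w UpperHalfPlane.I < r / 2)
    (hs : ∀ w : ℍ, ContDiffAt ℝ ∞ (u ∘ ofComplex) w) {t : ℝ}
    (hE : ∫⁻ w : ℍ, ENNReal.ofReal (gradSq u w) ≤
      ENNReal.ofReal t * ∫⁻ w : ℍ, ENNReal.ofReal (u w ^ 2)) :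
    RayleighLE Γ₁ (tr Γ₀ r (eps Γ₁ h) u) t := by
  intro D hD
  have hM1 : MovesFar Γ₁ S := fun g hg => hM g (h1 hg)
  rw [unfold_two hM1 hS hD h (ρ := gradSq u) (measurable_gradSq u),
    unfold_two hM1 hS hD h (ρ := fun w => u w ^ 2)
      ((continuous_of_smooth hs).measurable.pow_const 2)]
  · rw [mul_left_comm]
    gcongr
  · refine sum_formula hM hr h1 hh hh1 (σ := fun w => tr Γ₀ r (eps Γ₁ h) u w ^ 2)
      (ρ := fun w => u w ^ 2) ?_ ?_ ?_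
    · intro g hg w hw
      rw [tr_eq hM hr _ u hg hw, mul_pow]
    · intro w hw
      rw [tr_zero _ u hw]
      norm_num
    · intro w hw
      have : u w = 0 := by
        by_contra hne
        have := hu w hne
        linarith
      rw [this]
      norm_num
  · refine sum_formula hM hr h1 hh hh1 ?_ ?_ ?_
    · intro g hg w hw
      exact gradSq_tr hM hr _ hs hg hw
    · intro w hw
      exact gradSq_eq_zero_of_eventually (tr_far hM hr0 hr _ hu hw)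
    · intro w hw
      exact gradSq_supp hr0 hu hw

end Pool.Agent.E8helper46.HM
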